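import Pool.Agent.W500.CS.Stm

set_option autoImplicit false

open MeasureTheory Polynomial Metric Set Filter Topology
open scoped ComplexConjugate

namespace Pool.Agent.W461.CQ

open Pool.Agent.W500.CS

/-- gradient inequality -/
theorem grad_ineq {V : ℂ → ℝ} {x : ℂ} {ε : ℝ} (hV : ConvexOn ℝ (ball x ε) V) {y z : ℂ}
    (hy : y ∈ ball x ε) (hz : z ∈ ball x ε) {A : ℂ →L[ℝ] ℝ} (hA : HasFDerivAt V A y) :
    A (z - y) ≤ V z - V y := by
  have h1 : ConvexOn ℝ ((AffineMap.lineMap y z : ℝ →ᵃ[ℝ] ℂ) ⁻¹' ball x ε)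
      (V ∘ (AffineMap.lineMap y z : ℝ →ᵃ[ℝ] ℂ)) := hV.comp_affineMap _
  have h0 : (0 : ℝ) ∈ (AffineMap.lineMap y z : ℝ →ᵃ[ℝ] ℂ) ⁻¹' ball x ε := by
    rw [mem_preimage, AffineMap.lineMap_apply_zero]; exact hy
  have h1' : (1 : ℝ) ∈ (AffineMap.lineMap y z : ℝ →ᵃ[ℝ] ℂ) ⁻¹' ball x ε := by
    rw [mem_preimage, AffineMap.lineMap_apply_one]; exact hz
  have hd : HasDerivAt (V ∘ (AffineMap.lineMap y z : ℝ →ᵃ[ℝ] ℂ)) (A (z - y)) 0 := by
    have h2 : HasDerivAt (AffineMap.lineMap y z : ℝ →ᵃ[ℝ] ℂ) (z - y) (0 : ℝ) :=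
      AffineMap.hasDerivAt_lineMap
    have h3 : HasFDerivAt V A ((AffineMap.lineMap y z : ℝ →ᵃ[ℝ] ℂ) 0) := by
      rw [AffineMap.lineMap_apply_zero]; exact hA
    exact h3.comp_hasDerivAt 0 h2
  have h4 := h1.le_slope_of_hasDerivAt h0 h1' zero_lt_one hd
  rw [slope_def_field, Function.comp_apply, Function.comp_apply, AffineMap.lineMap_apply_zero,
    AffineMap.lineMap_apply_one, sub_zero, div_one] at h4
  exact h4

theorem main : S_DIR := by
  intro r W U B hD x hx e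
  obtain ⟨ε, hε, C, hεW, hV⟩ := hD.sc x hx
  set V : ℂ → ℝ := fun y => U y + C * ‖y‖ ^ 2 with hVdef
  have hN : ∀ y : ℂ, HasFDerivAt (fun y : ℂ => C * ‖y‖ ^ 2) (C • (2 • (innerSL ℝ y))) y := by
    intro y
    exact (hasStrictFDerivAt_norm_sq y).hasFDerivAt.const_mul C
  set Q : ℂ → ℝ := fun y => (C • (2 • (innerSL ℝ y)) : ℂ →L[ℝ] ℝ) e with hQ
  have hQc : Continuous Q := by
    have : Q = fun y => C * (2 * inner ℝ y e) := by
      funext y
      simp [hQ, two_smul]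
      ring
    rw [this]
    fun_prop
  -- the line
  have hline : ∀ t : ℝ, (AffineMap.lineMap x (x + e) : ℝ →ᵃ[ℝ] ℂ) t = x + t * e := by
    intro t
    rw [AffineMap.lineMap_apply]
    simp only [vsub_eq_sub, add_sub_cancel_left, vadd_eq_add, Complex.real_smul]
    ring
  set φ : ℝ → ℝ := fun t => V (x + t * e) with hφ
  have hφc : ConvexOn ℝ ((AffineMap.lineMap x (x + e) : ℝ →ᵃ[ℝ] ℂ) ⁻¹' ball x ε) φ := by
    have := hV.comp_affineMap (AffineMap.lineMap x (x + e) : ℝ →ᵃ[ℝ] ℂ)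
    have h2 : V ∘ (AffineMap.lineMap x (x + e) : ℝ →ᵃ[ℝ] ℂ) = φ := by
      funext t
      rw [Function.comp_apply, hline]
    rwa [h2] at this
  have h0int : (0 : ℝ) ∈ interior ((AffineMap.lineMap x (x + e) : ℝ →ᵃ[ℝ] ℂ) ⁻¹' ball x ε) := by
    rw [(isOpen_ball.preimage (AffineMap.lineMap_continuous)).interior_eq, mem_preimage,
      AffineMap.lineMap_apply_zero]
    exact mem_ball_self hε
  have hder := hφc.hasDerivWithinAt_rightDeriv_of_mem_interior h0int
  set d : ℝ := derivWithin φ (Ioi 0) 0 with hd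
  -- it suffices to find the index
  have hUd : HasDerivWithinAt (fun t : ℝ => U (x + t * e)) (d - Q x) (Ioi 0) 0 := by
    have h1 : HasDerivAt (fun t : ℝ => x + (t : ℂ) * e) e 0 := by
      have h2 : HasDerivAt (AffineMap.lineMap x (x + e) : ℝ →ᵃ[ℝ] ℂ) ((x + e) - x) (0 : ℝ) :=
        AffineMap.hasDerivAt_lineMap
      rw [add_sub_cancel_left] at h2
      have h3 : (fun t : ℝ => x + (t : ℂ) * e) = (AffineMap.lineMap x (x + e) : ℝ →ᵃ[ℝ] ℂ) := by
        funext t; exact (hline t).symm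
      rw [h3]; exact h2
    have h4 : HasDerivAt (fun t : ℝ => C * ‖x + (t : ℂ) * e‖ ^ 2) (Q x) 0 := by
      have h5 : HasFDerivAt (fun y : ℂ => C * ‖y‖ ^ 2) (C • (2 • (innerSL ℝ x)))
          (x + ((0 : ℝ) : ℂ) * e) := by
        rw [Complex.ofReal_zero, zero_mul, add_zero]; exact hN x
      exact h5.comp_hasDerivAt 0 h1
    have h6 := hder.sub h4.hasDerivWithinAt
    refine h6.congr_of_eventuallyEq ?_ ?_
    · filter_upwards with t
      simp [hφ, hVdef]
    · simp [hφ, hVdef]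
  suffices h : ∃ i, (B i x * e).re = d - Q x by
    obtain ⟨i, hi⟩ := h
    exact ⟨i, by rw [hi]; exact hUd⟩
  by_contra hno
  push Not at hno
  -- a gap
  have hBc : ∀ i, ContinuousAt (B i) x := fun i =>
    ((hD.hol i).differentiableAt (hD.op.mem_nhds hx)).continuousAt
  set F : Fin r → ℂ → ℝ := fun i y => (B i y * e).re + Q y with hF
  have hFc : ∀ i, ContinuousAt (F i) x := by
    intro i
    have h1 : ContinuousAt (fun y => B i y * e) x := (hBc i).mul continuousAt_const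
    exact (Complex.continuous_re.continuousAt.comp h1).add hQc.continuousAt
  have hFne : ∀ i, F i x ≠ d := by
    intro i h
    apply hno i
    rw [← h]
    simp [hF]
  obtain ⟨c, hc, hcF⟩ : ∃ c : ℝ, 0 < c ∧ ∀ i, 2 * c ≤ |F i x - d| := by
    rcases isEmpty_or_nonempty (Fin r) with he | hne
    · exact ⟨1, one_pos, fun i => (he.false i).elim⟩
    · obtain ⟨i0, hi0⟩ := Finite.exists_min (fun i => |F i x - d|)
      refine ⟨|F i0 x - d| / 2, ?_, fun i => ?_⟩
      · have := abs_pos.mpr (sub_ne_zero.mpr (hFne i0))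
        linarith
      · have := hi0 i
        linarith
  have hnear : ∀ᶠ y in 𝓝 x, ∀ i, c ≤ |F i y - d| := by
    rw [eventually_all]
    intro i
    have h1 := (hFc i).eventually (Metric.ball_mem_nhds (F i x) hc)
    filter_upwards [h1] with y hy
    rw [Real.dist_eq] at hy
    have h2 := hcF i
    have h3 : |F i x - d| ≤ |F i y - F i x| + |F i y - d| := by
      have : F i x - d = -(F i y - F i x) + (F i y - d) := by ring
      rw [this]
      refine (abs_add_le _ _).trans ?_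
      rw [abs_neg]
    linarith
  -- Lipschitz bound
  obtain ⟨K, t, ht, hK⟩ := (hV.locallyLipschitzOn isOpen_ball) (mem_ball_self hε)
  rw [isOpen_ball.nhdsWithin_eq (mem_ball_self hε)] at ht
  obtain ⟨ρ, hρ, hρs⟩ := Metric.mem_nhds_iff.mp
    (inter_mem (inter_mem ht (ball_mem_nhds x hε)) hnear)
  have hρt : ball x ρ ⊆ t := fun y hy => (hρs hy).1.1
  have hρε : ball x ρ ⊆ ball x ε := fun y hy => (hρs hy).1.2
  have hρn : ∀ y ∈ ball x ρ, ∀ i, c ≤ |F i y - d| := fun y hy => (hρs hy).2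
  have hLip : ∀ y ∈ ball x ρ, ∀ z ∈ ball x ρ, |V y - V z| ≤ K * ‖y - z‖ := by
    intro y hy z hz
    have := hK.dist_le_mul y (hρt hy) z (hρt hz)
    rwa [Real.dist_eq, dist_eq_norm] at this
  have hKn : (0 : ℝ) ≤ K := K.2
  -- dense set
  have hdense := Measure.dense_of_ae hD.ae
  -- the difference quotients
  set g : ℝ → ℝ := fun η => (V (x + η * e) - V x) / η with hg
  have hgt : Tendsto g (𝓝[>] 0) (𝓝 d) := by
    have h1 := (hasDerivWithinAt_iff_tendsto_slope' (self_notMem_Ioi)).mp hder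
    refine h1.congr fun η => ?_
    rw [slope_def_field, sub_zero, hg]
    simp [hφ]
  have hg2 : Tendsto (fun η => g (2 * η)) (𝓝[>] 0) (𝓝 d) := by
    refine hgt.comp ?_
    refine tendsto_nhdsWithin_iff.mpr ⟨?_, ?_⟩
    · have : Tendsto (fun η : ℝ => 2 * η) (𝓝 0) (𝓝 (2 * 0)) := by
        exact (continuous_const.mul continuous_id).tendsto 0
      rw [mul_zero] at this
      exact this.mono_left nhdsWithin_le_nhds
    · filter_upwards [self_mem_nhdsWithin] with η hη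
      have : (0 : ℝ) < η := hη
      exact mem_Ioi.mpr (by linarith)
  have hidt : Tendsto (fun η : ℝ => 2 * K * η) (𝓝[>] 0) (𝓝 0) := by
    have : Tendsto (fun η : ℝ => 2 * (K : ℝ) * η) (𝓝 0) (𝓝 (2 * K * 0)) :=
      (continuous_const.mul continuous_id).tendsto 0
    rw [mul_zero] at this
    exact this.mono_left nhdsWithin_le_nhds
  have hlow : ∀ᶠ η in 𝓝[>] (0 : ℝ), d - c < g η - 2 * K * η := by
    have h1 : Tendsto (fun η => g η - 2 * K * η) (𝓝[>] 0) (𝓝 (d - 0)) := hgt.sub hidt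
    rw [sub_zero] at h1
    exact h1.eventually (lt_mem_nhds (by linarith))
  have hupp : ∀ᶠ η in 𝓝[>] (0 : ℝ), 2 * g (2 * η) - g η + 2 * K * η < d + c := by
    have h1 : Tendsto (fun η => 2 * g (2 * η) - g η + 2 * K * η) (𝓝[>] 0)
        (𝓝 (2 * d - d + 0)) := ((hg2.const_mul 2).sub hgt).add hidt
    exact h1.eventually (gt_mem_nhds (by linarith))
  have hin1 : ∀ᶠ η : ℝ in 𝓝[>] (0 : ℝ), x + ((2 * η : ℝ) : ℂ) * e ∈ ball x ρ := by
    have h1 : Tendsto (fun η : ℝ => x + ((2 * η : ℝ) : ℂ) * e) (𝓝 0)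
        (𝓝 (x + ((2 * 0 : ℝ) : ℂ) * e)) := by
      apply Continuous.tendsto
      fun_prop
    have h2 : x + ((2 * 0 : ℝ) : ℂ) * e = x := by simp
    rw [h2] at h1
    exact (h1.mono_left nhdsWithin_le_nhds).eventually (ball_mem_nhds x hρ)
  have hin2 : ∀ᶠ η : ℝ in 𝓝[>] (0 : ℝ), x + (η : ℂ) * e ∈ ball x (ρ / 2) := by
    have h1 : Tendsto (fun η : ℝ => x + (η : ℂ) * e) (𝓝 0) (𝓝 (x + ((0 : ℝ) : ℂ) * e)) := by
      apply Continuous.tendsto
      fun_prop
    have h2 : x + ((0 : ℝ) : ℂ) * e = x := by simp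
    rw [h2] at h1
    exact (h1.mono_left nhdsWithin_le_nhds).eventually (ball_mem_nhds x (by linarith))
  have hsq : ∀ᶠ η in 𝓝[>] (0 : ℝ), η ^ 2 < ρ / 2 := by
    have h1 : Tendsto (fun η : ℝ => η ^ 2) (𝓝 0) (𝓝 (0 ^ 2)) := (continuous_pow 2).tendsto 0
    rw [zero_pow two_ne_zero] at h1
    exact (h1.mono_left nhdsWithin_le_nhds).eventually (gt_mem_nhds (by linarith))
  have hpos : ∀ᶠ η in 𝓝[>] (0 : ℝ), (0 : ℝ) < η := self_mem_nhdsWithin
  obtain ⟨η, h1, h2, h3, h4, h5, h6⟩ := (hlow.and (hupp.and (hin1.and (hin2.and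
    (hsq.and hpos))))).exists
  have hη : 0 < η := h6
  obtain ⟨y, hyS, hyd⟩ := hdense.exists_dist_lt (x + (η : ℂ) * e) (pow_pos hη 2)
  have hyρ : y ∈ ball x ρ := by
    rw [mem_ball] at h4 ⊢
    have := dist_triangle y (x + (η : ℂ) * e) x
    rw [dist_comm y (x + (η : ℂ) * e)] at this
    linarith
  have hmid : x + (η : ℂ) * e ∈ ball x ρ := ball_subset_ball (by linarith) h4
  obtain ⟨i, hi⟩ := hyS (hεW (hρε hyρ))
  have hA : HasFDerivAt V (gr (B i y) + C • (2 • (innerSL ℝ y))) y := hi.add (hN y)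
  set A : ℂ →L[ℝ] ℝ := gr (B i y) + C • (2 • (innerSL ℝ y)) with hAdef
  have hAe : A e = F i y := rfl
  have hAn : ‖A‖ ≤ K := by
    refine hA.le_of_lipschitzOn (s := ball x ρ) (isOpen_ball.mem_nhds hyρ) (hK.mono hρt)
  set ξ : ℂ := y - (x + (η : ℂ) * e) with hξ
  have hξn : ‖ξ‖ ≤ η ^ 2 := by
    rw [hξ, ← dist_eq_norm, dist_comm]
    exact hyd.le
  have hAξ : |A ξ| ≤ K * ‖ξ‖ := by
    have := A.le_opNorm ξ
    rw [Real.norm_eq_abs] at this
    exact this.trans (mul_le_mul_of_nonneg_right hAn (norm_nonneg _))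
  have hKξ : K * ‖ξ‖ ≤ K * η ^ 2 := mul_le_mul_of_nonneg_left hξn hKn
  have hVy : |V y - V (x + (η : ℂ) * e)| ≤ K * ‖ξ‖ := hLip y hyρ _ hmid
  have hAη : A ((η : ℂ) * e) = η * A e := by
    rw [← Complex.real_smul, map_smul, smul_eq_mul]
  -- first inequality
  have i1 := grad_ineq hV (hρε hyρ) (mem_ball_self hε) hA
  have e1 : x - y = -((η : ℂ) * e) - ξ := by rw [hξ]; ring
  rw [e1, map_sub, map_neg, hAη] at i1
  have i2 := grad_ineq hV (hρε hyρ) (hρε h3) hA
  have e2 : x + ((2 * η : ℝ) : ℂ) * e - y = (η : ℂ) * e - ξ := by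
    rw [hξ]; push_cast; ring
  rw [e2, map_sub, hAη] at i2
  rw [hAe] at i1 i2
  have hab1 := abs_le.mp hAξ
  have hab2 := abs_le.mp hVy
  -- quotients
  have hgη : η * g η = V (x + (η : ℂ) * e) - V x := by
    rw [hg]; field_simp
  have hg2η : η * (2 * g (2 * η)) = V (x + ((2 * η : ℝ) : ℂ) * e) - V x := by
    rw [hg]; field_simp
  have low : η * (g η - 2 * K * η) ≤ η * F i y := by nlinarith
  have upp : η * F i y ≤ η * (2 * g (2 * η) - g η + 2 * K * η) := by nlinarith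
  have low' := le_of_mul_le_mul_left low hη
  have upp' := le_of_mul_le_mul_left upp hη
  have hfin := hρn y hyρ i
  have : |F i y - d| < c := by
    rw [abs_lt]
    constructor <;> linarith
  linarith

end Pool.Agent.W461.CQ
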